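import Mathlib
import Pool.Agent.P.MP_d046ed_co.Asymp

set_option autoImplicit false

namespace Pool.Agent.Results.MP_d046ed_co.Asymptotic

open Filter Topology

/-- The `t`-dimension of the poset with carrier `P` and order relation `le`: the least `d ≥ 1`
such that there is an order embedding into the `d`-th power of the chain with `t` elements,
ordered coordinatewise. -/
noncomputable def tDim (t : ℕ) (P : Type) (le : P → P → Prop) : ℕ :=
  sInf {d : ℕ | 1 ≤ d ∧ ∃ f : P → (Fin d → Fin t),
    Function.Injective f ∧ ∀ x y : P, le x y ↔ f x ≤ f y}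

/-- For all `0 < α < 1` and `t ≥ 2`, the `t`-dimension of the divisibility order on the positive
integers of `(α n, n]` is asymptotic to `c log n` with `c = 1 / log t`. -/
theorem result (α : ℝ) (hα0 : 0 < α) (hα1 : α < 1) (t : ℕ) (ht : 2 ≤ t) :
    Tendsto
      (fun n : ℕ =>
        (tDim t {m : ℕ // 0 < m ∧ α * (n : ℝ) < (m : ℝ) ∧ m ≤ n} (fun a b => a.1 ∣ b.1) : ℝ)
          / (1 / Real.log t * Real.log n))
      atTop (𝓝 1) := by
  have ht1 : (1 : ℝ) < t := by exact_mod_cast ht
  have hL : Real.log t ≠ 0 := (Real.log_pos ht1).ne'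
  have h := (Pool.Agent.P.MP_d046ed_co.main α hα0 hα1 t ht).mul_const (Real.log t)
  rw [one_div_mul_cancel hL] at h
  refine h.congr fun n => ?_
  unfold tDim
  field_simp

end Pool.Agent.Results.MP_d046ed_co.Asymptotic
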